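import Mathlib
import Pool.Agent.Lib.MP_5939ed_al.NT.Main

set_option autoImplicit false

namespace Pool.Agent.Results.MP_5939ed_al.NotTestable

/-- For every `n ≥ 2` the group `⟨a, b, c ∣ b⁻¹ a b = aⁿ, a⁻¹ c a = cⁿ⟩` is not testable in
permutations: there are triples with the local statistics of an exact solution that are far from
every exact solution on every larger finite set. -/
theorem result :
    ∀ n : ℕ, 2 ≤ n → ∃ ε : ℝ, 0 < ε ∧
      ∀ (P : Finset (FreeGroup (Fin 3))) (δ : ℝ), 0 < δ →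
        ∃ (N : ℕ) (a b c a₀ b₀ c₀ : Equiv.Perm (Fin N)), 0 < N ∧
          b₀⁻¹ * a₀ * b₀ = a₀ ^ n ∧ a₀⁻¹ * c₀ * a₀ = c₀ ^ n ∧
          (({i | ∃ w ∈ P, ¬ (FreeGroup.lift ![a, b, c] w i = i ↔
            FreeGroup.lift ![a₀, b₀, c₀] w i = i)}.ncard : ℕ) : ℝ) < δ * N ∧
          ∀ (M : ℕ) (ι : Fin N ↪ Fin M) (a' b' c' : Equiv.Perm (Fin M)),
            b'⁻¹ * a' * b' = a' ^ n → a'⁻¹ * c' * a' = c' ^ n →
            ε * N ≤ (({i | ι (a i) ≠ a' (ι i)}.ncard : ℕ) : ℝ) ∨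
              ε * N ≤ (({i | ι (b i) ≠ b' (ι i)}.ncard : ℕ) : ℝ) ∨
              ε * N ≤ (({i | ι (c i) ≠ c' (ι i)}.ncard : ℕ) : ℝ) :=
  Pool.Agent.Lib.MP_5939ed_al.NT.not_testable

/-- The negated form of the question, for every `n ≥ 2`, follows. -/
theorem posed :
    ∀ n : ℕ, 2 ≤ n → ¬ (∀ ε : ℝ, 0 < ε → ∃ δ : ℝ, 0 < δ ∧
      ∀ N : ℕ, ∀ a b c : Equiv.Perm (Fin N),
        ((Finset.univ.filter (fun i => (b⁻¹ * a * b) i ≠ (a ^ n) i)).card : ℝ) / N < δ →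
        ((Finset.univ.filter (fun i => (a⁻¹ * c * a) i ≠ (c ^ n) i)).card : ℝ) / N < δ →
        ∃ a' b' c' : Equiv.Perm (Fin N),
          b'⁻¹ * a' * b' = a' ^ n ∧ a'⁻¹ * c' * a' = c' ^ n ∧
          ((Finset.univ.filter (fun i => a i ≠ a' i)).card : ℝ) / N < ε ∧
          ((Finset.univ.filter (fun i => b i ≠ b' i)).card : ℝ) / N < ε ∧
          ((Finset.univ.filter (fun i => c i ≠ c' i)).card : ℝ) / N < ε) := by
  intro n hn H
  obtain ⟨ε, hε, h⟩ := result n hn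
  obtain ⟨δ, hδ, H⟩ := H ε hε
  obtain ⟨N, a, b, c, a₀, b₀, c₀, hN, r1, r2, h1, h2⟩ :=
    h {(FreeGroup.of 0 ^ n)⁻¹ * ((FreeGroup.of 1)⁻¹ * FreeGroup.of 0 * FreeGroup.of 1),
      (FreeGroup.of 2 ^ n)⁻¹ * ((FreeGroup.of 0)⁻¹ * FreeGroup.of 2 * FreeGroup.of 0)} δ hδ
  have hN' : (0 : ℝ) < N := by exact_mod_cast hN
  have cv : ∀ q : Fin N → Prop, ∀ [DecidablePred q],
      (Finset.univ.filter q).card = {i | q i}.ncard := fun q _ => by
    rw [← Set.ncard_coe_finset]; simp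
  obtain ⟨a', b', c', s1, s2, d1, d2, d3⟩ := H N a b c
    (by
      rw [div_lt_iff₀ hN', cv]
      refine lt_of_le_of_lt (Nat.cast_le.2 (Set.ncard_le_ncard fun i hi => ?_)) h1
      refine ⟨_, Finset.mem_insert_self _ _, fun e => hi ?_⟩
      simp only [map_mul, map_inv, map_pow, FreeGroup.lift_apply_of, Matrix.cons_val_zero,
        Matrix.cons_val_one, r1, inv_mul_cancel, Equiv.Perm.one_apply, iff_true] at e
      rwa [Equiv.Perm.mul_apply, Equiv.Perm.inv_eq_iff_eq] at e)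
    (by
      rw [div_lt_iff₀ hN', cv]
      refine lt_of_le_of_lt (Nat.cast_le.2 (Set.ncard_le_ncard fun i hi => ?_)) h1
      refine ⟨_, Finset.mem_insert_of_mem (Finset.mem_singleton_self _), fun e => hi ?_⟩
      simp only [map_mul, map_inv, map_pow, FreeGroup.lift_apply_of, Matrix.cons_val_zero,
        Matrix.cons_val, r2, inv_mul_cancel, Equiv.Perm.one_apply, iff_true] at e
      rwa [Equiv.Perm.mul_apply, Equiv.Perm.inv_eq_iff_eq] at e)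
  rw [div_lt_iff₀ hN', cv] at d1 d2 d3
  rcases h2 N (Function.Embedding.refl _) a' b' c' s1 s2 with e | e | e
  exacts [d1.not_ge e, d2.not_ge e, d3.not_ge e]

/-- Words that are trivial in every exact solution are almost trivial on the far triples. -/
theorem residual (n : ℕ) (hn : 2 ≤ n) : ∃ ε : ℝ, 0 < ε ∧
    ∀ (P : Finset (FreeGroup (Fin 3))) (δ : ℝ), 0 < δ →
      (∀ w ∈ P, ∀ (N : ℕ) (a b c : Equiv.Perm (Fin N)), b⁻¹ * a * b = a ^ n →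
        a⁻¹ * c * a = c ^ n → FreeGroup.lift ![a, b, c] w = 1) →
      ∃ (N : ℕ) (a b c : Equiv.Perm (Fin N)), 0 < N ∧
        (∀ w ∈ P, (({i | FreeGroup.lift ![a, b, c] w i ≠ i}.ncard : ℕ) : ℝ) < δ * N) ∧
        ∀ a' b' c' : Equiv.Perm (Fin N), b'⁻¹ * a' * b' = a' ^ n → a'⁻¹ * c' * a' = c' ^ n →
          ε * N ≤ (({i | a i ≠ a' i}.ncard : ℕ) : ℝ) ∨ ε * N ≤ (({i | b i ≠ b' i}.ncard : ℕ) : ℝ) ∨
            ε * N ≤ (({i | c i ≠ c' i}.ncard : ℕ) : ℝ) := by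
  obtain ⟨ε, hε, h⟩ := result n hn
  refine ⟨ε, hε, fun P δ hδ hP => ?_⟩
  obtain ⟨N, a, b, c, a₀, b₀, c₀, hN, r1, r2, h1, h2⟩ := h P δ hδ
  refine ⟨N, a, b, c, hN, fun w hw => ?_, h2 N (Function.Embedding.refl _)⟩
  refine lt_of_le_of_lt (Nat.cast_le.2 (Set.ncard_le_ncard fun i hi => ?_)) h1
  exact ⟨w, hw, fun e => hi (e.2 (by rw [hP w hw N a₀ b₀ c₀ r1 r2]; rfl))⟩

end Pool.Agent.Results.MP_5939ed_al.NotTestable
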